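import Pool.Agent.H78.STN.Stmts

set_option autoImplicit false

namespace Pool.STN

theorem DSC_thm : DSCStmt := by
  intro M b hM
  induction b with
  | zero =>
    intro _
    exact ⟨M, hM, by simp, by simp⟩
  | succ b ih =>
    intro h
    obtain ⟨t, ht, h1, h2⟩ := ih (fun i hi => h i (by omega))
    have h3 : F^[b] M % 3 = 0 := h b (by omega)
    have h4 : 3 ∣ 2 ^ b * t := by
      rw [← h2]
      exact Nat.dvd_of_mod_eq_zero h3
    have h5 : 3 ∣ t := by
      refine (Nat.Coprime.dvd_of_dvd_mul_left ?_ h4)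
      exact Nat.Coprime.pow_right b (by norm_num)
    obtain ⟨t', rfl⟩ := h5
    refine ⟨t', by omega, ?_, ?_⟩
    · rw [h1]
      ring
    · rw [Function.iterate_succ_apply']
      unfold F at h2 h3 ⊢
      rw [if_pos h3, h2]
      have e : 2 ^ b * (3 * t') = 3 * (2 ^ b * t') := by ring
      rw [e, Nat.mul_div_cancel_left _ (by norm_num)]
      ring

end Pool.STN
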