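import Pool.Agent.H78.STN.Stmts

set_option autoImplicit false

namespace Pool.STN

theorem tri_two {x : ℕ} (hx : 2 ≤ x) : 2 ≤ F x := by
  unfold F
  split_ifs <;> omega

theorem tri_lt {x : ℕ} (hx : 2 ≤ x) : F x < x ↔ x % 3 = 0 := by
  unfold F
  split_ifs <;> omega

theorem tri_gt {x : ℕ} (hx : 2 ≤ x) : x < F x ↔ x % 3 ≠ 0 := by
  unfold F
  split_ifs <;> omega

theorem TRI_thm : TRIStmt := by
  intro m k hm hk hper
  have h1 : ∀ i, 2 ≤ F^[i] m := by
    intro i
    induction i with
    | zero => exact hm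
    | succ i ih =>
      rw [Function.iterate_succ_apply']
      exact tri_two ih
  have h2 : ∀ i, F^[i + k] m = F^[i] m := by
    intro i
    rw [Function.iterate_add_apply, hper]
  have h3 : ∀ i, F^[i + 1] m < F^[i] m ↔ F^[i] m % 3 = 0 := by
    intro i
    rw [Function.iterate_succ_apply']
    exact tri_lt (h1 i)
  have h4 : ∀ i, F^[i] m < F^[i + 1] m ↔ F^[i] m % 3 ≠ 0 := by
    intro i
    rw [Function.iterate_succ_apply']
    exact tri_gt (h1 i)
  refine ⟨h1, h2, h3, h4, ?_, ?_⟩
  · by_contra hcon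
    push Not at hcon
    have hmono : StrictMono (fun i => F^[i] m) :=
      strictMono_nat_of_lt_succ fun i => (h4 i).2 (hcon i)
    have h5 : F^[0] m < F^[k] m := hmono (by omega : 0 < k)
    rw [hper] at h5
    exact lt_irrefl _ h5
  · by_contra hcon
    push Not at hcon
    have hanti : StrictAnti (fun i => F^[i] m) :=
      strictAnti_nat_of_succ_lt fun i => (h3 i).2 (hcon i)
    have h5 : F^[k] m < F^[0] m := hanti (by omega : 0 < k)
    rw [hper] at h5
    exact lt_irrefl _ h5

end Pool.STN
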